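import Pool.Agent.N790.CM.F
import Pool.Agent.Results.MP_bbe012_lc.EqualityOverConstants

/-!
# Equality of periods at the fractions with denominators near all multiples of Carmichael's function

For all `m ≤ M` but `M / (log M)^U` the errorless test of the starting theorem `EqualityOverConstants` for the equality of two
polynomial expressions in `π`, in arbitrary further constants `ξ_1, …, ξ_g` and in the periods `K`, `E` of Legendre curves,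
logarithms and polylogarithms at a fraction `q`, with coefficients at most `T ^ A`, `T` the denominator of `q`, run with the
precision `μ T ^ (-B)` (`T ^ (-B)` if `g = 0`), gives the right answer at ALL fractions `q` in `[a, b]` whose denominator is
within `v^κ` of `G(v)`, for ALL multiples `v ≤ M^S` of Carmichael's function `λ(m)`; here `G` is expanding of order `e` (for
example `G(v) = α v^e`) and `S κ < 1`, so that for `κ = 0` the exponent `S` is arbitrary. More generally `v` is any number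
divisible by `f(p)` for all large primes `p` dividing `m` exactly once, where `f` takes each positive value at boundedly many
primes.

Proof. Outside a set of at most `M / (log M)^U` numbers `m ≤ M` every `v ≤ M^S` is a common multiple for at most `M^δ` of the
`m` (`N790/CM`). The fractions of denominator at most `X` at which the test does not give the right answer for all expressions
are at most `C X ^ ε` by the starting theorem, applied at the scales `2 ^ j`.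
-/

set_option autoImplicit false

namespace Pool.Agent.Results.MP_bbe012_lc.CarmichaelMultiples

open Finset
open Pool.Agent.N733.TG (Expanding expanding_pow)
open Pool.Agent.N790.CM (FewTimes Carries fewTimes_pred carries_carmichael good_unif)
open Pool.Agent.Results.MP_bbe012_lc.EqualityOverConstants (Name value test LowerBound NoAnswer)

/-- The test with precision `δ` decides equality at the parameter `q`: for all expressions `P₁`, `P₂` of degree at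
most `d` in each variable with coefficients at most `M` and all approximations of their values with error at most
`δ`, it gives an answer and the answer is right. -/
def Decides {g N : ℕ} (w d : ℕ) (α γ : Fin N → ℝ) (ξ : Fin g → ℂ) (M δ : ℝ) (q : ℚ) : Prop :=
  ∀ P₁ P₂ : MvPolynomial (Name g N 1 w) ℤ, (∀ z, P₁.degreeOf z ≤ d ∧ P₂.degreeOf z ≤ d) →
    (∀ s, |((P₁.coeff s : ℤ) : ℝ)| ≤ M ∧ |((P₂.coeff s : ℤ) : ℝ)| ≤ M) →
    ∀ v₁ v₂ : ℂ, ‖v₁ - value α γ ξ (fun _ => q) P₁‖ ≤ δ → ‖v₂ - value α γ ξ (fun _ => q) P₂‖ ≤ δ →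
      (test d ξ P₁ P₂ v₁ v₂ δ = some true ∧ value α γ ξ (fun _ => q) P₁ = value α γ ξ (fun _ => q) P₂) ∨
      (test d ξ P₁ P₂ v₁ v₂ δ = some false ∧ value α γ ξ (fun _ => q) P₁ ≠ value α γ ξ (fun _ => q) P₂)

/-- `0 < μ t ≤ 1` is a lower bound for the absolute values of the nonzero values at `(π, ξ_1, …, ξ_g)` of the integer
polynomials of degree at most `D` in each variable with coefficients at most `(2 t) ^ (A + 1)` -/
def Bound {g : ℕ} (ξ : Fin g → ℂ) (D : ℕ) (A : ℝ) (μ : ℕ → ℝ) : Prop :=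
  ∀ t : ℕ, 1 ≤ t → 0 < μ t ∧ μ t ≤ 1 ∧ LowerBound ξ D ((2 * t : ℝ) ^ (A + 1)) (μ t)

lemma test_none {g N w d : ℕ} {ξ : Fin g → ℂ} {P₁ P₂ : MvPolynomial (Name g N 1 w) ℤ} {v₁ v₂ : ℂ} {δ δ' : ℝ}
    (hδ : δ ≤ δ') (h : test d ξ P₁ P₂ v₁ v₂ δ = none) : test d ξ P₁ P₂ v₁ v₂ δ' = none := by
  classical
  unfold test at h ⊢
  split_ifs at h ⊢ with h1 h2 h3 h4
  · exact absurd (by linarith : 2 * δ < ‖v₁ - v₂‖) ‹¬ 2 * δ < ‖v₁ - v₂‖›
  · rfl

lemma small_finite {a b : ℝ} (ha : 0 < a) (hb : b < 1) (T : ℕ) : {r : ℚ | (a ≤ r ∧ r ≤ b) ∧ r.den ≤ T}.Finite := by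
  refine ((Finset.Icc (0 : ℤ) T ×ˢ Finset.Icc 1 T).finite_toSet.image fun p : ℤ × ℕ => (p.1 : ℚ) / p.2).subset ?_
  rintro r ⟨⟨h1, h2⟩, h3⟩
  refine ⟨(r.num, r.den), ?_, Rat.num_div_den r⟩
  have hr0 : 0 ≤ r := by
    have : (0 : ℝ) ≤ r := by linarith
    exact_mod_cast this
  have hr1 : r ≤ 1 := by
    have : (r : ℝ) ≤ 1 := by linarith
    exact_mod_cast this
  rw [Finset.mem_coe, Finset.mem_product, Finset.mem_Icc, Finset.mem_Icc]
  refine ⟨⟨Rat.num_nonneg.2 hr0, ?_⟩, r.den_pos, h3⟩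
  have h4 : (r.num : ℚ) ≤ r.den := by
    have h5 := Rat.num_div_den r
    have h6 : (0 : ℚ) < r.den := by exact_mod_cast r.den_pos
    rw [← h5, div_le_one h6] at hr1
    exact hr1
  have h5 : r.num ≤ (r.den : ℤ) := by exact_mod_cast h4
  exact h5.trans (by exact_mod_cast h3)

/-- summation over the scales -/
lemma dyadic {a b : ℝ} (ha : 0 < a) (hb : b < 1) {ε : ℝ} (hε : 0 < ε) (C : ℝ) : ∃ K : ℝ, ∀ Q : ℚ → Prop,
    (∀ T : ℕ, 2 ≤ T → (({q : ℚ | ((a ≤ q ∧ q ≤ b) ∧ Q q) ∧ q.den ≤ T ∧ T < 2 * q.den}.ncard : ℕ) : ℝ) ≤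
      C * (T : ℝ) ^ ε) → ∀ X : ℝ, 1 ≤ X → {q : ℚ | ((a ≤ q ∧ q ≤ b) ∧ Q q) ∧ (q.den : ℝ) ≤ X}.Finite ∧
      (({q : ℚ | ((a ≤ q ∧ q ≤ b) ∧ Q q) ∧ (q.den : ℝ) ≤ X}.ncard : ℕ) : ℝ) ≤ K * X ^ ε := by
  have h2s : (2 : ℝ) ^ (-ε) < 1 := Real.rpow_lt_one_of_one_lt_of_neg (by norm_num) (by linarith)
  have hpos : 0 < 1 - (2 : ℝ) ^ (-ε) := by linarith
  obtain ⟨K, hK⟩ : ∃ K : ℝ, K = max 0 (C / (1 - (2 : ℝ) ^ (-ε))) := ⟨_, rfl⟩
  have hK0 : 0 ≤ K := by rw [hK]; exact le_max_left _ _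
  have hKC : K * (2 : ℝ) ^ (-ε) + C ≤ K := by
    have h1 : C / (1 - (2 : ℝ) ^ (-ε)) ≤ K := by rw [hK]; exact le_max_right _ _
    rw [div_le_iff₀ hpos] at h1
    nlinarith
  refine ⟨K, fun Q h => ?_⟩
  have hfin : ∀ T : ℕ, {q : ℚ | ((a ≤ q ∧ q ≤ b) ∧ Q q) ∧ q.den ≤ T}.Finite := fun T =>
    (small_finite ha hb T).subset fun q hq => ⟨hq.1.1, hq.2⟩
  have key : ∀ T : ℕ, 1 ≤ T →
      (({q : ℚ | ((a ≤ q ∧ q ≤ b) ∧ Q q) ∧ q.den ≤ T}.ncard : ℕ) : ℝ) ≤ K * (T : ℝ) ^ ε := by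
    intro T
    induction T using Nat.strong_induction_on with
    | _ T ih =>
      intro hT
      rcases Nat.lt_or_ge T 2 with h2 | h2
      · have h1 : T = 1 := by omega
        subst h1
        have h3 : {q : ℚ | ((a ≤ q ∧ q ≤ b) ∧ Q q) ∧ q.den ≤ 1} = ∅ := by
          ext q
          simp only [Set.mem_ofPred_eq, Set.mem_empty_iff_false, iff_false]
          rintro ⟨⟨⟨h4, h5⟩, -⟩, h6⟩
          have h7 : q.den = 1 := by
            have := q.den_pos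
            omega
          have h8 : (q.num : ℚ) = q := Rat.coe_int_num_of_den_eq_one h7
          have h9 : ((q.num : ℤ) : ℝ) = (q : ℝ) := by exact_mod_cast congrArg (Rat.cast (K := ℝ)) h8
          rw [← h9] at h4 h5
          have h10 : (0 : ℝ) < (q.num : ℤ) := by linarith
          have h11 : ((q.num : ℤ) : ℝ) < 1 := by linarith
          have h12 : 0 < q.num := by exact_mod_cast h10
          have h13 : q.num < 1 := by exact_mod_cast h11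
          omega
        rw [h3, Set.ncard_empty]
        simp only [Nat.cast_zero, Nat.cast_one, Real.one_rpow, mul_one]
        exact hK0
      · have h3 := ih (T / 2) (by omega) (by omega)
        have h4 := h T h2
        have h5 : {q : ℚ | ((a ≤ q ∧ q ≤ b) ∧ Q q) ∧ q.den ≤ T} ⊆
            {q : ℚ | ((a ≤ q ∧ q ≤ b) ∧ Q q) ∧ q.den ≤ T / 2} ∪
              {q : ℚ | ((a ≤ q ∧ q ≤ b) ∧ Q q) ∧ q.den ≤ T ∧ T < 2 * q.den} := by
          rintro x ⟨hx1, hx2⟩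
          rcases Nat.lt_or_ge (T / 2) x.den with h6 | h6
          · exact Or.inr ⟨hx1, hx2, by omega⟩
          · exact Or.inl ⟨hx1, h6⟩
        have h6 : {q : ℚ | ((a ≤ q ∧ q ≤ b) ∧ Q q) ∧ q.den ≤ T}.ncard ≤
            {q : ℚ | ((a ≤ q ∧ q ≤ b) ∧ Q q) ∧ q.den ≤ T / 2}.ncard +
              {q : ℚ | ((a ≤ q ∧ q ≤ b) ∧ Q q) ∧ q.den ≤ T ∧ T < 2 * q.den}.ncard := by
          refine (Set.ncard_le_ncard h5 ((hfin _).union ?_)).trans (Set.ncard_union_le _ _)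
          exact (hfin T).subset fun x hx => ⟨hx.1, hx.2.1⟩
        have hTr : (0 : ℝ) < (T : ℝ) := by exact_mod_cast (by omega : 0 < T)
        have h7 : ((T / 2 : ℕ) : ℝ) ^ ε ≤ (T : ℝ) ^ ε * (2 : ℝ) ^ (-ε) := by
          have h8 : ((T / 2 : ℕ) : ℝ) ≤ (T : ℝ) / 2 := Nat.cast_div_le
          calc ((T / 2 : ℕ) : ℝ) ^ ε ≤ ((T : ℝ) / 2) ^ ε :=
                Real.rpow_le_rpow (by positivity) h8 hε.le
            _ = (T : ℝ) ^ ε * (2 : ℝ) ^ (-ε) := by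
                rw [Real.div_rpow hTr.le (by norm_num), Real.rpow_neg (by norm_num), div_eq_mul_inv]
        have h9 : (({q : ℚ | ((a ≤ q ∧ q ≤ b) ∧ Q q) ∧ q.den ≤ T}.ncard : ℕ) : ℝ) ≤
            (({q : ℚ | ((a ≤ q ∧ q ≤ b) ∧ Q q) ∧ q.den ≤ T / 2}.ncard : ℕ) : ℝ) +
              (({q : ℚ | ((a ≤ q ∧ q ≤ b) ∧ Q q) ∧ q.den ≤ T ∧ T < 2 * q.den}.ncard : ℕ) : ℝ) := by
          exact_mod_cast h6
        have h10 : K * ((T / 2 : ℕ) : ℝ) ^ ε ≤ K * ((T : ℝ) ^ ε * (2 : ℝ) ^ (-ε)) :=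
          mul_le_mul_of_nonneg_left h7 hK0
        have h11 : (K * (2 : ℝ) ^ (-ε) + C) * (T : ℝ) ^ ε ≤ K * (T : ℝ) ^ ε :=
          mul_le_mul_of_nonneg_right hKC (by positivity)
        nlinarith
  intro X hX
  have hsub : {q : ℚ | ((a ≤ q ∧ q ≤ b) ∧ Q q) ∧ (q.den : ℝ) ≤ X} ⊆
      {q : ℚ | ((a ≤ q ∧ q ≤ b) ∧ Q q) ∧ q.den ≤ ⌊X⌋₊} := by
    rintro q ⟨h1, h2⟩
    exact ⟨h1, Nat.le_floor h2⟩
  have hX1 : 1 ≤ ⌊X⌋₊ := (Nat.one_le_floor_iff _).2 hX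
  refine ⟨(hfin _).subset hsub, ?_⟩
  calc _ ≤ (({q : ℚ | ((a ≤ q ∧ q ≤ b) ∧ Q q) ∧ q.den ≤ ⌊X⌋₊}.ncard : ℕ) : ℝ) := by
        exact_mod_cast Set.ncard_le_ncard hsub (hfin _)
    _ ≤ K * ((⌊X⌋₊ : ℕ) : ℝ) ^ ε := key _ hX1
    _ ≤ K * X ^ ε := mul_le_mul_of_nonneg_left
        (Real.rpow_le_rpow (Nat.cast_nonneg _) (Nat.floor_le (by linarith)) hε.le) hK0

/-- the fractions at one scale at which the test does not give the right answer -/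
lemma block {g N : ℕ} (w d : ℕ) (α γ : Fin N → ℝ) {a b A : ℝ} (ha : 0 < a) (hb : b < 1) (hA : 0 ≤ A)
    (hright : ∀ ξ : Fin g → ℂ, ∀ q : Fin 1 → ℚ, (∀ l, a ≤ q l ∧ q l ≤ b) → ∀ P₁ P₂ : MvPolynomial (Name g N 1 w) ℤ,
      ∀ (v₁ v₂ : ℂ) (δ : ℝ), ‖v₁ - value α γ ξ q P₁‖ ≤ δ → ‖v₂ - value α γ ξ q P₂‖ ≤ δ →
      (test d ξ P₁ P₂ v₁ v₂ δ = some true → value α γ ξ q P₁ = value α γ ξ q P₂) ∧
      (test d ξ P₁ P₂ v₁ v₂ δ = some false → value α γ ξ q P₁ ≠ value α γ ξ q P₂))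
    {ε : ℝ} (hε : 0 < ε) (C : ℝ) (T₀ : ℕ) : ∃ C' : ℝ, ∀ (ξ : Fin g → ℂ) (δ : ℕ → ℝ),
    (∀ T : ℕ, T₀ ≤ T → 2 ≤ T → ∃ η : ℝ, (∀ t : ℕ, t ≤ T → T < 2 * t → δ t ≤ η) ∧
      (NoAnswer N 1 w d α γ ξ a b A T η).Finite ∧ ((NoAnswer N 1 w d α γ ξ a b A T η).ncard : ℝ) ≤ C * (T : ℝ) ^ ε) →
    ∀ T : ℕ, 2 ≤ T → (({q : ℚ | ((a ≤ q ∧ q ≤ b) ∧ ¬ Decides w d α γ ξ ((q.den : ℝ) ^ A) (δ q.den) q) ∧
      q.den ≤ T ∧ T < 2 * q.den}.ncard : ℕ) : ℝ) ≤ C' * (T : ℝ) ^ ε := by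
  refine ⟨max C 0 + (({q : ℚ | (a ≤ q ∧ q ≤ b) ∧ q.den ≤ T₀}.ncard : ℕ) : ℝ), fun ξ δ hδ T hT => ?_⟩
  have hT1 : (1 : ℝ) ≤ T := by exact_mod_cast (by omega : 1 ≤ T)
  have hpow1 : 1 ≤ (T : ℝ) ^ ε := Real.one_le_rpow hT1 hε.le
  have hC0 : 0 ≤ max C 0 := le_max_right _ _
  have h3 : (0 : ℝ) ≤ (({q : ℚ | (a ≤ q ∧ q ≤ b) ∧ q.den ≤ T₀}.ncard : ℕ) : ℝ) := by positivity
  rcases le_total T T₀ with hcase | hcase
  · have h1 : ({q : ℚ | ((a ≤ q ∧ q ≤ b) ∧ ¬ Decides w d α γ ξ ((q.den : ℝ) ^ A) (δ q.den) q) ∧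
        q.den ≤ T ∧ T < 2 * q.den}.ncard : ℕ) ≤ {q : ℚ | (a ≤ q ∧ q ≤ b) ∧ q.den ≤ T₀}.ncard := by
      refine Set.ncard_le_ncard ?_ (small_finite ha hb T₀)
      rintro q ⟨⟨h1, -⟩, h2, -⟩
      exact ⟨h1, h2.trans hcase⟩
    have h2 : (({q : ℚ | ((a ≤ q ∧ q ≤ b) ∧ ¬ Decides w d α γ ξ ((q.den : ℝ) ^ A) (δ q.den) q) ∧
        q.den ≤ T ∧ T < 2 * q.den}.ncard : ℕ) : ℝ) ≤
        (({q : ℚ | (a ≤ q ∧ q ≤ b) ∧ q.den ≤ T₀}.ncard : ℕ) : ℝ) := by exact_mod_cast h1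
    nlinarith
  · obtain ⟨η, hη, hfin, hcard⟩ := hδ T hcase hT
    have hinj : Function.Injective fun (q : ℚ) (_ : Fin 1) => q := fun q q' h => congrFun h 0
    have hsub : (fun (q : ℚ) (_ : Fin 1) => q) ''
        {q : ℚ | ((a ≤ q ∧ q ≤ b) ∧ ¬ Decides w d α γ ξ ((q.den : ℝ) ^ A) (δ q.den) q) ∧
        q.den ≤ T ∧ T < 2 * q.den} ⊆ NoAnswer N 1 w d α γ ξ a b A T η := by
      rintro _ ⟨q, ⟨⟨h1, h2⟩, h3, h4⟩, rfl⟩
      have hqT : (q.den : ℝ) ≤ T := by exact_mod_cast h3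
      have hde := hη q.den h3 h4
      unfold Decides at h2
      push Not at h2
      obtain ⟨P₁, P₂, hd, hco, v₁, v₂, hv₁, hv₂, h5⟩ := h2
      refine ⟨fun l => ⟨h1.1, h1.2, hqT⟩, P₁, P₂, hd, fun s => ?_, v₁, v₂,
        hv₁.trans hde, hv₂.trans hde, ?_⟩
      · have h6 : (q.den : ℝ) ^ A ≤ (T : ℝ) ^ A := Real.rpow_le_rpow (Nat.cast_nonneg _) hqT hA
        exact ⟨(hco s).1.trans h6, (hco s).2.trans h6⟩
      · refine test_none hde ?_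
        have hr := hright ξ (fun _ => q) (fun _ => h1) P₁ P₂ v₁ v₂ (δ q.den) hv₁ hv₂
        rcases ht : test d ξ P₁ P₂ v₁ v₂ (δ q.den) with _ | ⟨_ | _⟩
        · rfl
        · exact absurd (h5.2 ht) (hr.2 ht)
        · exact absurd (hr.1 ht) (h5.1 ht)
    have h1 := Set.ncard_le_ncard hsub hfin
    rw [Set.ncard_image_of_injective _ hinj] at h1
    have h2 : (({q : ℚ | ((a ≤ q ∧ q ≤ b) ∧ ¬ Decides w d α γ ξ ((q.den : ℝ) ^ A) (δ q.den) q) ∧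
        q.den ≤ T ∧ T < 2 * q.den}.ncard : ℕ) : ℝ) ≤ ((NoAnswer N 1 w d α γ ξ a b A T η).ncard : ℝ) := by
      exact_mod_cast h1
    have h4 : C * (T : ℝ) ^ ε ≤ max C 0 * (T : ℝ) ^ ε :=
      mul_le_mul_of_nonneg_right (le_max_left C 0) (by positivity)
    nlinarith

/-- comparison of the precisions at one scale -/
lemma prec {B : ℝ} {T₀ : ℕ} (hT₀ : (2 : ℝ) ^ (|B| + 1) ≤ T₀) {t T : ℕ} (h0 : T₀ ≤ T) (h2 : 2 ≤ T) (ht : t ≤ T)
    (hT : T < 2 * t) : (t : ℝ) ^ (-(|B| + 1)) ≤ (T : ℝ) ^ (-B) := by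
  have hT1 : (1 : ℝ) ≤ T := by exact_mod_cast (by omega : 1 ≤ T)
  have hT2 : (T : ℝ) < 2 * t := by exact_mod_cast hT
  have hB'0 : 0 ≤ |B| := abs_nonneg B
  have h0' : (T₀ : ℝ) ≤ T := by exact_mod_cast h0
  have h5 : (t : ℝ) ^ (-(|B| + 1)) ≤ ((T : ℝ) / 2) ^ (-(|B| + 1)) :=
    Real.rpow_le_rpow_of_nonpos (by positivity) (by linarith) (by linarith)
  have h6 : ((T : ℝ) / 2) ^ (-(|B| + 1)) = (T : ℝ) ^ (-(|B| + 1)) * (2 : ℝ) ^ (|B| + 1) := by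
    rw [Real.div_rpow (by positivity) (by norm_num), Real.rpow_neg (by norm_num : (0 : ℝ) ≤ 2),
      div_inv_eq_mul]
  have h7 : (T : ℝ) ^ (-(|B| + 1)) * (2 : ℝ) ^ (|B| + 1) ≤ (T : ℝ) ^ (-(|B| + 1)) * T :=
    mul_le_mul_of_nonneg_left (hT₀.trans h0') (by positivity)
  have h8 : (T : ℝ) ^ (-(|B| + 1)) * T = (T : ℝ) ^ (-|B|) := by
    nth_rewrite 2 [← Real.rpow_one (T : ℝ)]
    rw [← Real.rpow_add (by linarith)]
    congr 1
    ring
  have h9 : (T : ℝ) ^ (-|B|) ≤ (T : ℝ) ^ (-B) :=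
    Real.rpow_le_rpow_of_exponent_le hT1 (by linarith [le_abs_self B])
  linarith

lemma LowerBound.mono {g : ℕ} {ξ : Fin g → ℂ} {D : ℕ} {H H' μ : ℝ} (hH : H ≤ H') (h : LowerBound ξ D H' μ) :
    LowerBound ξ D H μ := fun Q h1 h2 h3 => h Q h1 (fun s => (h2 s).trans hH) h3

/-- **Main result.** Let `0 < a < b < 1`, `α_1 > ⋯ > α_N > 0`, `γ_1 < ⋯ < γ_N < 1`, `α_j < a`, `b < γ_j`, let `A ≥ 0`,
`S ≥ 1`, `κ ≥ 0`, `S κ < 1`, and let `e` be a real number. (1) There are `D` and `B` such that for all `f` which take each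
positive value at most `T` times at the primes, all `G` expanding of order `e` and all `U` there is `M₀` such that for all
complex constants `ξ_1, …, ξ_g`, all lower bounds `μ` (`Bound`; there are such bounds for all constants) and all `M ≥ M₀`: for
all `m ≤ M` but at most `M / (log M)^U`, for ALL `v ≤ M^S` which are divisible by `f(p)` for all primes
`p > exp (√(log M))` dividing `m` exactly once, the test with precision `μ(t) t ^ (-B)` decides equality at ALL fractions `q`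
in `[a, b]` whose denominator `t` is within `v^κ` of `G(v)`, for all pairs of expressions of degree at most `d` in each variable
with coefficients at most `t ^ A`. (2) Without further constants (`g = 0`), this holds with the precision `t ^ (-B)`. (3) The
function `f(p) = p - 1` and the multiples of Carmichael's function are examples, and `G(v) = r v^s`. -/
theorem result {N : ℕ} (g w d : ℕ) (α γ : Fin N → ℝ) (hα : StrictAnti α) (hγ : StrictMono γ)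
    (hα0 : ∀ j, 0 < α j) (hγ1 : ∀ j, γ j < 1) (a b : ℝ) (ha : 0 < a) (hab : a < b) (hb : b < 1)
    (h : ∀ j, α j < a ∧ b < γ j) (A : ℝ) (hA : 0 ≤ A) (e κ S : ℝ) (hκ : 0 ≤ κ) (hS : 1 ≤ S) (hSκ : S * κ < 1) :
    (∃ (D : ℕ) (B : ℝ), (∀ ξ : Fin g → ℂ, ∃ μ : ℕ → ℝ, Bound ξ D A μ) ∧
      ∀ (T : ℕ) (f : ℕ → ℕ), FewTimes f T → ∀ G : ℕ → ℝ, Expanding G e → ∀ U : ℕ,
      ∃ M₀ : ℕ, ∀ (ξ : Fin g → ℂ) (μ : ℕ → ℝ), Bound ξ D A μ → ∀ M : ℕ, M₀ ≤ M →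
      ({m : ℕ | 1 ≤ m ∧ m ≤ M ∧ ¬ ∀ v : ℕ, 1 ≤ v → (v : ℝ) ≤ (M : ℝ) ^ S → Carries f (Real.exp √(Real.log M)) m v →
        ∀ q : ℚ, a ≤ q ∧ q ≤ b → |(q.den : ℝ) - G v| ≤ (v : ℝ) ^ κ →
        Decides w d α γ ξ ((q.den : ℝ) ^ A) (μ q.den * (q.den : ℝ) ^ (-B)) q}.ncard : ℝ) ≤ M / Real.log M ^ U) ∧
    (∃ B : ℝ, ∀ (T : ℕ) (f : ℕ → ℕ), FewTimes f T → ∀ G : ℕ → ℝ, Expanding G e → ∀ U : ℕ,
      ∃ M₀ : ℕ, ∀ (ξ : Fin 0 → ℂ) (M : ℕ), M₀ ≤ M →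
      ({m : ℕ | 1 ≤ m ∧ m ≤ M ∧ ¬ ∀ v : ℕ, 1 ≤ v → (v : ℝ) ≤ (M : ℝ) ^ S → Carries f (Real.exp √(Real.log M)) m v →
        ∀ q : ℚ, a ≤ q ∧ q ≤ b → |(q.den : ℝ) - G v| ≤ (v : ℝ) ^ κ →
        Decides w d α γ ξ ((q.den : ℝ) ^ A) ((q.den : ℝ) ^ (-B)) q}.ncard : ℝ) ≤ M / Real.log M ^ U) ∧
    (FewTimes (fun p => p - 1) 1 ∧
      ∀ (y : ℝ) (m v : ℕ), ArithmeticFunction.carmichael m ∣ v → Carries (fun p => p - 1) y m v) ∧
    ∀ r s : ℝ, 0 < r → 1 ≤ s → Expanding (fun v => r * (v : ℝ) ^ s) s := by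
  obtain ⟨e', he'⟩ : ∃ e' : ℝ, e' = max e 1 := ⟨_, rfl⟩
  have he1 : 1 ≤ e' := by rw [he']; exact le_max_right _ _
  have hee : e ≤ e' := by rw [he']; exact le_max_left _ _
  obtain ⟨ε, hε⟩ : ∃ ε : ℝ, ε = (1 - S * κ) / (2 * (S * e')) := ⟨_, rfl⟩
  have hSe : 0 < S * e' := by positivity
  have hε0 : 0 < ε := by
    rw [hε]
    exact div_pos (by linarith) (by linarith)
  have hεe : S * (e * ε + κ) < 1 := by
    have h1 : S * e' * ε = (1 - S * κ) / 2 := by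
      rw [hε]
      field_simp
    have h2 : S * e * ε ≤ S * e' * ε := by
      apply mul_le_mul_of_nonneg_right _ hε0.le
      exact mul_le_mul_of_nonneg_left hee (by linarith)
    have h3 : S * (e * ε + κ) = S * e * ε + S * κ := by ring
    rw [h3]
    linarith
  have hexp : 2 * (((1 : ℕ) : ℝ) - 1) + ε = ε := by
    push_cast
    ring
  refine ⟨?_, ?_, ⟨fewTimes_pred, carries_carmichael⟩, fun r s hr hs => expanding_pow hr hs⟩
  · obtain ⟨hright, ⟨D, B, C, hres⟩, -⟩ := EqualityOverConstants.result g 1 w d le_rfl α γ hα hγ hα0 hγ1 a b ha hab hb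
      h A ε hε0
    rw [hexp] at hres
    obtain ⟨T₀, hT₀⟩ := exists_nat_ge ((2 : ℝ) ^ (|B| + 1))
    obtain ⟨C', hC'⟩ := block w d α γ ha hb hA hright hε0 C T₀
    obtain ⟨K₁, hK₁⟩ := dyadic ha hb hε0 C'
    refine ⟨D, |B| + 1, fun ξ => ?_, fun T' f hf G hG U => ?_⟩
    · have h1 : ∀ t : ℕ, ∃ μ : ℝ, 1 ≤ t → 0 < μ ∧ μ ≤ 1 ∧ LowerBound ξ D ((2 * t : ℝ) ^ (A + 1)) μ := by
        intro t
        by_cases ht : 1 ≤ t
        · have ht' : (1 : ℝ) ≤ t := by exact_mod_cast ht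
          obtain ⟨μ, h2⟩ := (hres (2 * t) (by linarith) ξ).1
          exact ⟨μ, fun _ => h2⟩
        · exact ⟨0, fun h2 => absurd h2 ht⟩
      choose μ hμ using h1
      exact ⟨μ, fun t ht => hμ t ht⟩
    · obtain ⟨M₀, hM₀⟩ := good_unif (fun q : ℚ => (q.den : ℝ)) hG hε0.le hκ hS hεe K₁ hf U
      refine ⟨M₀, fun ξ μ hμ M hM => ?_⟩
      refine hM₀ (fun q => a ≤ q ∧ q ≤ b)
        (fun q => Decides w d α γ ξ ((q.den : ℝ) ^ A) (μ q.den * (q.den : ℝ) ^ (-(|B| + 1))) q) (fun X hX => ?_) M hM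
      refine hK₁ _ (hC' ξ (fun t => μ t * (t : ℝ) ^ (-(|B| + 1))) fun T hT0 hT2 => ?_) X hX
      have hT1 : (1 : ℝ) ≤ T := by exact_mod_cast (by omega : 1 ≤ T)
      obtain ⟨t₀, ht₀, hmax⟩ := Finset.exists_max_image (Finset.Ioc (T / 2) T) μ ⟨T, by
        rw [Finset.mem_Ioc]
        omega⟩
      rw [Finset.mem_Ioc] at ht₀
      obtain ⟨m1, m2, m3⟩ := hμ t₀ (by omega)
      have ht₀T : (T : ℝ) ≤ 2 * t₀ := by exact_mod_cast (by omega : T ≤ 2 * t₀)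
      refine ⟨μ t₀ * (T : ℝ) ^ (-B), fun t ht1 ht2 => ?_, ?_⟩
      · have h1 := hmax t (by
          rw [Finset.mem_Ioc]
          omega)
        exact mul_le_mul h1 (prec hT₀ hT0 hT2 ht1 ht2) (by positivity) m1.le
      · exact (hres T hT1 ξ).2 (μ t₀) m1 m2
          (LowerBound.mono (Real.rpow_le_rpow (by linarith) ht₀T (by linarith)) m3)
  · obtain ⟨hright, -, B, C, hres⟩ := EqualityOverConstants.result 0 1 w d le_rfl α γ hα hγ hα0 hγ1 a b ha hab hb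
      h A ε hε0
    rw [hexp] at hres
    obtain ⟨T₀, hT₀⟩ := exists_nat_ge ((2 : ℝ) ^ (|B| + 1))
    obtain ⟨C', hC'⟩ := block w d α γ ha hb hA hright hε0 C T₀
    obtain ⟨K₁, hK₁⟩ := dyadic ha hb hε0 C'
    refine ⟨|B| + 1, fun T' f hf G hG U => ?_⟩
    obtain ⟨M₀, hM₀⟩ := good_unif (fun q : ℚ => (q.den : ℝ)) hG hε0.le hκ hS hεe K₁ hf U
    refine ⟨M₀, fun ξ M hM => ?_⟩
    refine hM₀ (fun q => a ≤ q ∧ q ≤ b)
      (fun q => Decides w d α γ ξ ((q.den : ℝ) ^ A) ((q.den : ℝ) ^ (-(|B| + 1))) q) (fun X hX => ?_) M hM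
    refine hK₁ _ (hC' ξ (fun t => (t : ℝ) ^ (-(|B| + 1))) fun T hT0 hT2 => ?_) X hX
    have hT1 : (1 : ℝ) ≤ T := by exact_mod_cast (by omega : 1 ≤ T)
    exact ⟨(T : ℝ) ^ (-B), fun t ht1 ht2 => prec hT₀ hT0 hT2 ht1 ht2, hres T hT1 ξ⟩

end Pool.Agent.Results.MP_bbe012_lc.CarmichaelMultiples
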