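import Pool.Agent.N891.GM.Gen
import Pool.Agent.Results.MP_bbe012_lc.AdditiveValues

/-!
# Equality of periods at the fractions with denominators near the multiples and powers of generic real numbers

The errorless test of the starting theorem `EqualityOverConstants` for the equality of two polynomial expressions in
`π`, in arbitrary further constants `ξ_1, …, ξ_g` and in the periods `K`, `E` of Legendre curves, logarithms and
polylogarithms at a fraction `q`, with coefficients at most `T ^ A`, `T` the denominator of `q`, run with the precision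
`μ T ^ (-B)` (`T ^ (-B)` if `g = 0`), has exceptions, at most `O(T ^ s)` up to the height `T`. We show that they do not
matter at generic places: for every `s > 0` and `0 ≤ κ < 1` the test gives the right answer at ALL fractions `q` in
`[a, b]`

* whose denominator is within `K |a_n| ^ κ` of `a_n x`, if `n` is large, for all real `x` outside a set of Hausdorff
  dimension at most `(s + ρ) / (1 - κ)` and all `K`, where `a_n` is any sequence of real numbers of order `ρ`, for example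
  `n!` or `2 ^ n` (`ρ = 0`), or `n ^ t` (`ρ = 1 / t`);
* whose denominator is within `K x ^ (κ n)` of `r x ^ n`, if `n` is large, for all `x > 1` outside a set of Hausdorff
  dimension at most `s / (1 - κ)`;
* whose denominator is within `K b_n ^ (κ x)` of `r b_n ^ x`, if `n` is large, for all `x ≥ x₀` outside a set of Hausdorff
  dimension at most `(s + ρ / x₀) / (1 - κ)`, where `b_n > 0` is of order `ρ`, for example `n ^ x` (`ρ = 1`).

Since `s` is arbitrarily small this holds for almost all `x` (in the third case for almost all `x ≥ x₀ > ρ / (1 - κ)`, in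
the first case if `ρ + κ < 1`). These are sparse sequences, not seen by the number of the exceptions up to `T`.

Proof. A thin set of heights is covered, after division by `a_n` (or after taking the `n`-th root, or the logarithm to the
base `b_n`), by few short intervals (`Pool.Agent.N891.GM`).
-/

set_option autoImplicit false

namespace Pool.Agent.Results.MP_bbe012_lc.GenericMultiples

open Pool.Agent.N891.GM (OfOrder Generic generic examples)
open Pool.Agent.Results.MP_bbe012_lc.EqualityOverConstants (Name value test LowerBound NoAnswer)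
open Pool.Agent.Results.MP_bbe012_lc.AdditiveValues (Decides Bound block dyadic prec LowerBound.mono)

theorem gen_of_count {a b : ℝ} (Good : ℚ → Prop) {s κ K : ℝ} (hs : 0 ≤ s) (hκ : 0 ≤ κ) (hκ1 : κ < 1)
    (h : ∀ X : ℝ, 1 ≤ X → {q : ℚ | ((a ≤ q ∧ q ≤ b) ∧ ¬ Good q) ∧ (q.den : ℝ) ≤ X}.Finite ∧
      (({q : ℚ | ((a ≤ q ∧ q ≤ b) ∧ ¬ Good q) ∧ (q.den : ℝ) ≤ X}.ncard : ℕ) : ℝ) ≤ K * X ^ s) :
    Generic s κ fun x y => ∀ q : ℚ, (a ≤ q ∧ q ≤ b) → |(q.den : ℝ) - x| ≤ y → Good q := by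
  refine generic (fun q : ℚ => a ≤ q ∧ q ≤ b) Good (fun q => (q.den : ℝ)) hs hκ hκ1 fun ε hε => ?_
  refine ⟨|K|, fun X hX => ⟨(h X hX).1, (h X hX).2.trans ?_⟩⟩
  have h1 : X ^ s ≤ X ^ (s + ε) := Real.rpow_le_rpow_of_exponent_le hX (by linarith)
  calc K * X ^ s ≤ |K| * X ^ s := mul_le_mul_of_nonneg_right (le_abs_self K) (by positivity)
    _ ≤ |K| * X ^ (s + ε) := mul_le_mul_of_nonneg_left h1 (abs_nonneg K)

/-- **Main result.** Let `0 < a < b < 1`, `α_1 > ⋯ > α_N > 0`, `γ_1 < ⋯ < γ_N < 1`, `α_j < a`, `b < γ_j`, let `A ≥ 0` and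
`s > 0`. (1) There are `D` and `B`, such that for all complex constants `ξ_1, …, ξ_g`, all lower bounds `μ` (`Bound`; there
are such bounds for all constants) and `0 ≤ κ < 1` the following property of `x`, `y` holds generically with the exponents `s`
and `κ`: the test with precision `μ(T) T ^ (-B)` decides equality at ALL fractions `q` in `[a, b]` whose denominator `T` is
within `y` of `x`, for all pairs of expressions of degree at most `d` in each variable with coefficients at most `T ^ A`.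
(2) Without further constants (`g = 0`), this holds with the precision `T ^ (-B)`. (3) Examples of sequences. -/
theorem result {N : ℕ} (g w d : ℕ) (α γ : Fin N → ℝ) (hα : StrictAnti α) (hγ : StrictMono γ)
    (hα0 : ∀ j, 0 < α j) (hγ1 : ∀ j, γ j < 1) (a b : ℝ) (ha : 0 < a) (hab : a < b) (hb : b < 1)
    (h : ∀ j, α j < a ∧ b < γ j) (A : ℝ) (hA : 0 ≤ A) (s : ℝ) (hs : 0 < s) :
    (∃ (D : ℕ) (B : ℝ), (∀ ξ : Fin g → ℂ, ∃ μ : ℕ → ℝ, Bound ξ D A μ) ∧
      ∀ (ξ : Fin g → ℂ) (μ : ℕ → ℝ), Bound ξ D A μ → ∀ κ : ℝ, 0 ≤ κ → κ < 1 →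
        Generic s κ fun x y => ∀ q : ℚ, a ≤ q ∧ q ≤ b → |(q.den : ℝ) - x| ≤ y →
          Decides w d α γ ξ ((q.den : ℝ) ^ A) (μ q.den * (q.den : ℝ) ^ (-B)) q) ∧
    (∃ B : ℝ, ∀ (ξ : Fin 0 → ℂ) (κ : ℝ), 0 ≤ κ → κ < 1 →
      Generic s κ fun x y => ∀ q : ℚ, a ≤ q ∧ q ≤ b → |(q.den : ℝ) - x| ≤ y →
        Decides w d α γ ξ ((q.den : ℝ) ^ A) ((q.den : ℝ) ^ (-B)) q) ∧
    OfOrder (fun n => (n.factorial : ℝ)) 0 ∧ (∀ r : ℝ, 1 < r → OfOrder (fun n => r ^ n) 0) ∧
    ∀ t : ℝ, 0 < t → OfOrder (fun n => (n : ℝ) ^ t) (1 / t) := by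
  have hexp : 2 * (((1 : ℕ) : ℝ) - 1) + s = s := by
    push_cast
    ring
  refine ⟨?_, ?_, examples⟩
  · obtain ⟨hright, ⟨D, B, C, hres⟩, -⟩ := EqualityOverConstants.result g 1 w d le_rfl α γ hα hγ hα0 hγ1 a b ha hab hb
      h A s hs
    rw [hexp] at hres
    obtain ⟨T₀, hT₀⟩ := exists_nat_ge ((2 : ℝ) ^ (|B| + 1))
    obtain ⟨C', hC'⟩ := block w d α γ ha hb hA hright hs C T₀
    obtain ⟨K₁, hK₁⟩ := dyadic ha hb hs C'
    refine ⟨D, |B| + 1, fun ξ => ?_, fun ξ μ hμ κ hκ hκ1 => ?_⟩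
    · have h1 : ∀ t : ℕ, ∃ μ : ℝ, 1 ≤ t → 0 < μ ∧ μ ≤ 1 ∧ LowerBound ξ D ((2 * t : ℝ) ^ (A + 1)) μ := by
        intro t
        by_cases ht : 1 ≤ t
        · have ht' : (1 : ℝ) ≤ t := by exact_mod_cast ht
          obtain ⟨μ, h2⟩ := (hres (2 * t) (by linarith) ξ).1
          exact ⟨μ, fun _ => h2⟩
        · exact ⟨0, fun h2 => absurd h2 ht⟩
      choose μ hμ using h1
      exact ⟨μ, fun t ht => hμ t ht⟩
    · refine gen_of_count (K := K₁)
        (fun q => Decides w d α γ ξ ((q.den : ℝ) ^ A) (μ q.den * (q.den : ℝ) ^ (-(|B| + 1))) q) hs.le hκ hκ1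
        (fun X hX => ?_)
      refine hK₁ _ (hC' ξ (fun t => μ t * (t : ℝ) ^ (-(|B| + 1))) fun T hT0 hT2 => ?_) X hX
      have hT1 : (1 : ℝ) ≤ T := by exact_mod_cast (by omega : 1 ≤ T)
      obtain ⟨t₀, ht₀, hmax⟩ := Finset.exists_max_image (Finset.Ioc (T / 2) T) μ ⟨T, by
        rw [Finset.mem_Ioc]
        omega⟩
      rw [Finset.mem_Ioc] at ht₀
      obtain ⟨m1, m2, m3⟩ := hμ t₀ (by omega)
      have ht₀T : (T : ℝ) ≤ 2 * t₀ := by exact_mod_cast (by omega : T ≤ 2 * t₀)
      refine ⟨μ t₀ * (T : ℝ) ^ (-B), fun t ht1 ht2 => ?_, ?_⟩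
      · have h1 := hmax t (by
          rw [Finset.mem_Ioc]
          omega)
        exact mul_le_mul h1 (prec hT₀ hT0 hT2 ht1 ht2) (by positivity) m1.le
      · exact (hres T hT1 ξ).2 (μ t₀) m1 m2
          (LowerBound.mono (Real.rpow_le_rpow (by linarith) ht₀T (by linarith)) m3)
  · obtain ⟨hright, -, B, C, hres⟩ := EqualityOverConstants.result 0 1 w d le_rfl α γ hα hγ hα0 hγ1 a b ha hab hb
      h A s hs
    rw [hexp] at hres
    obtain ⟨T₀, hT₀⟩ := exists_nat_ge ((2 : ℝ) ^ (|B| + 1))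
    obtain ⟨C', hC'⟩ := block w d α γ ha hb hA hright hs C T₀
    obtain ⟨K₁, hK₁⟩ := dyadic ha hb hs C'
    refine ⟨|B| + 1, fun ξ κ hκ hκ1 => ?_⟩
    refine gen_of_count (K := K₁)
      (fun q => Decides w d α γ ξ ((q.den : ℝ) ^ A) ((q.den : ℝ) ^ (-(|B| + 1))) q) hs.le hκ hκ1 (fun X hX => ?_)
    refine hK₁ _ (hC' ξ (fun t => (t : ℝ) ^ (-(|B| + 1))) fun T hT0 hT2 => ?_) X hX
    have hT1 : (1 : ℝ) ≤ T := by exact_mod_cast (by omega : 1 ≤ T)
    exact ⟨(T : ℝ) ^ (-B), fun t ht1 ht2 => prec hT₀ hT0 hT2 ht1 ht2, hres T hT1 ξ⟩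

end Pool.Agent.Results.MP_bbe012_lc.GenericMultiples
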