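import Pool.Agent.N207.NR.Main
import Pool.Agent.N207.AX.Exp
import Pool.Agent.N227.CF.Low
import Pool.Agent.N603.AX.VAR
import Pool.Agent.TH813.EKPer
import Pool.Agent.N301.AX.IND
import Pool.Agent.N878.AX.LINE

/-!
# A test for the equality of periods of 1-motives which answers at all conjugates of almost all points of a family

Let `K` be a number field, `E` a family of elliptic curves with nonconstant invariant `j` over a variety over `K` with
coordinates in the affine space `A ^ X` (of any dimension), `P_1, …, P_r` sections of `E` (independent modulo torsion)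
and `β_1, …, β_s` functions (multiplicatively independent modulo constants), all algebraic over the rational functions.
For a point `x` with coordinates in `K` and an embedding `φ` of `K` we consider the periods and quasi-periods
`ω₁, ω₂, η₁` of `φ(E_x)`, the elliptic logarithms `p_i` of `φ(P_i(x))`, the integrals of the second kind `ζ(p_i)` and the
logarithms `t_k` of `φ(β_k(x))`, for all `φ` together. These are periods (`η₂` can be eliminated by Legendre's relation, if
`2 π i` is among the constants below).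

The inputs are polynomials `R` in these `(3 + 2 r + s) [K : ℚ]` numbers (the differences of two expressions), whose
coefficients are combinations of arbitrary constants `ξ i` (for instance the powers of `2 π i`) with coefficients in the
integers of a number field `L`, and approximations of their values. The test answers 'equal' if `R` is formally zero, it
answers 'not equal' if the approximation is larger than the error, and it gives no answer otherwise. Its answers are
always right. We show that it answers for ALL polynomials `R` of growing degree and height, with the precision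
`T ^ (-ψ(T))`, that is with `O(ψ(T) log T)` digits, `ψ` any function which tends to infinity, over all `L` of growing
degree, for 100 percent of the points `x` of height at most `T` with given denominators.
-/

set_option autoImplicit false

open Filter NumberField
open scoped PeriodPair

namespace Pool.Agent.Results.MP_bbe012_lc.OneMotivesAllConjugates

/-- The Weierstrass zeta function `ζ(z) = ∑ (1/(z-l) + 1/l + z/l²)`, the sum over the lattice (the summand of
`l = 0` is `1/z`, since `1/0 = 0` in Lean). -/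
noncomputable def ζ (L : PeriodPair) (z : ℂ) : ℂ :=
  ∑' l : L.lattice, (1 / (z - l) + 1 / l + z / l ^ 2)

/-- `f` satisfies on `U` a polynomial equation over the polynomials in the coordinates -/
def Algebraic {X : Type} (U : Set (X → ℂ)) (f : (X → ℂ) → ℂ) : Prop :=
  ∃ Q : Polynomial (MvPolynomial X ℂ), Q ≠ 0 ∧ ∀ z ∈ U, Q.eval₂ (MvPolynomial.eval z) (f z) = 0

/-- A family of lattices `Λ z` with algebraic invariants, whose periods depend analytically on `z`, with elliptic
logarithms `p_i` of algebraic points and logarithms `t_k` of algebraic functions, depending on several parameters. -/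
structure Family {X : Type} [Fintype X] {r s : ℕ} (U : Set (X → ℂ)) (Λ : (X → ℂ) → PeriodPair)
    (p : Fin r → (X → ℂ) → ℂ) (t : Fin s → (X → ℂ) → ℂ) : Prop where
  isOpen : IsOpen U
  isPreconnected : IsPreconnected U
  nonempty : U.Nonempty
  analytic₁ : AnalyticOnNhd ℂ (fun z => (Λ z).ω₁) U
  analytic₂ : AnalyticOnNhd ℂ (fun z => (Λ z).ω₂) U
  algebraic_g₂ : Algebraic U (fun z => (Λ z).g₂)
  algebraic_g₃ : Algebraic U (fun z => (Λ z).g₃)
  /-- the quotient of the periods is not constant -/
  nonconstant : ∀ c : ℂ, ∃ z ∈ U, (Λ z).ω₂ / (Λ z).ω₁ ≠ c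
  analytic_p : ∀ i, AnalyticOnNhd ℂ (p i) U
  p_notMem : ∀ i, ∀ z ∈ U, p i z ∉ (Λ z).lattice
  algebraic_wp : ∀ i, Algebraic U (fun z => ℘[Λ z] (p i z))
  analytic_t : ∀ k, AnalyticOnNhd ℂ (t k) U
  algebraic_exp : ∀ k, Algebraic U (fun z => Complex.exp (t k z))
  /-- the points are independent modulo torsion -/
  independent_p : ∀ n : Fin r → ℤ, (∀ z ∈ U, ∑ i, (n i : ℂ) * p i z ∈ (Λ z).lattice) → n = 0
  /-- no nontrivial combination with integral coefficients of the `t_k` is constant -/
  independent_t : ∀ (m : Fin s → ℤ) (b : ℂ), (∀ z ∈ U, ∑ k, (m k : ℂ) * t k z = b) → m = 0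

/-- The `3 + 2 r + s` functions `ω₁, ω₂, η₁ = 2 ζ(ω₁ / 2)`, `p_i`, `ζ(p_i)`, `t_k` -/
noncomputable def value {X : Type} {r s : ℕ} (Λ : (X → ℂ) → PeriodPair) (p : Fin r → (X → ℂ) → ℂ)
    (t : Fin s → (X → ℂ) → ℂ) : Fin 3 ⊕ (Fin r ⊕ (Fin r ⊕ Fin s)) → (X → ℂ) → ℂ
  | Sum.inl j, z => ![(Λ z).ω₁, (Λ z).ω₂, 2 * ζ (Λ z) ((Λ z).ω₁ / 2)] j
  | Sum.inr (Sum.inl i), z => p i z
  | Sum.inr (Sum.inr (Sum.inl i)), z => ζ (Λ z) (p i z)
  | Sum.inr (Sum.inr (Sum.inr k)), z => t k z

/-- the points of norm at most `k` at distance at least `1 / k` from the complement of `U` -/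
def Inner {X : Type} [Fintype X] (U : Set (X → ℂ)) (k : ℕ) : Set (X → ℂ) := {z | ‖z‖ ≤ k ∧ Metric.ball z (k : ℝ)⁻¹ ⊆ U}

/-- the points with integral coordinates in `K` all of whose conjugates are at most `T` in absolute value -/
def Points (K X : Type) [Field K] [NumberField K] (T : ℝ) : Set (X → 𝓞 K) := {a | ∀ j, house (a j : K) ≤ T}

variable {K X : Type} [Field K] [NumberField K] [Fintype X]

/-- **The test.** The input is a polynomial `R` in periods and an approximation `y` of its value with error at most `ε`.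
The answer `true` means that the value is zero, the answer `false` that it is not zero. -/
noncomputable def test {σ : Type} (R : MvPolynomial σ ℂ) (ε : ℝ) (y : ℂ) : Option Bool := by
  classical exact if R = 0 then some true else if ε < ‖y‖ then some false else none

/-- **The exceptional points**: `s` in `K ^ X`, all of whose conjugates `φ s` are in the compact sets `Inner (U φ) k`,
such that the test gives no answer for some polynomial `R` of partial degrees at most `k`, whose coefficients are
combinations `∑ ξ i * c i` with integers `c i` of `L` all of whose conjugates are at most `T ^ k`, at the numbers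
`f φ y (φ s)`, `φ` running through the embeddings of `K`, and some approximation `y` with error at most `δ` times the
absolute value of some nonzero coefficient of `R` -/
def Undecided {σ : Type} (U : (K →+* ℂ) → Set (X → ℂ)) (f : (K →+* ℂ) → σ → (X → ℂ) → ℂ) (L : Type) [Field L]
    [NumberField L] (io : L →+* ℂ) (k : ℕ) (ξ : Fin k → ℂ) (T δ : ℝ) : Set (X → K) :=
  {s | (∀ φ : K →+* ℂ, (fun j => φ (s j)) ∈ Inner (U φ) k) ∧
    ∃ R : MvPolynomial ((K →+* ℂ) × σ) ℂ, (∀ y, R.degreeOf y ≤ k) ∧
    (∀ m, ∃ c : Fin k → 𝓞 L, (∀ i (φ : L →+* ℂ), ‖φ (c i : L)‖ ≤ T ^ (k : ℝ)) ∧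
      R.coeff m = ∑ i, ξ i * io (c i : L)) ∧
    ∃ m, ∃ y : ℂ, (R ≠ 0 → R.coeff m ≠ 0) ∧
      ‖y - MvPolynomial.eval (fun q => f q.1 q.2 fun j => q.1 (s j)) R‖ ≤ δ * ‖R.coeff m‖ ∧
      test R (δ * ‖R.coeff m‖) y = none}

/-- the answers of the test are right -/
theorem test_right {σ : Type} (R : MvPolynomial σ ℂ) (ε : ℝ) (y : ℂ) (v : σ → ℂ)
    (h : ‖y - MvPolynomial.eval v R‖ ≤ ε) (b : Bool) (hb : test R ε y = some b) :
    b = true ↔ MvPolynomial.eval v R = 0 := by
  classical
  unfold test at hb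
  split_ifs at hb with h1 h2
  · rw [← Option.some.inj hb, h1]
    simp
  · rw [← Option.some.inj hb]
    refine ⟨fun h3 => absurd h3 (by simp), fun h3 => ?_⟩
    rw [h3, sub_zero] at h
    exact absurd h (not_le.2 h2)

/-- the names of the functions among the general ones -/
def B {r s : ℕ} : Fin 3 ⊕ (Fin r ⊕ (Fin r ⊕ Fin s)) → Y776.Cv.Nv r s
  | Sum.inl j => Sum.inl (Fin.castLE (by norm_num) j)
  | Sum.inr (Sum.inl i) => Sum.inr (Sum.inl i)
  | Sum.inr (Sum.inr (Sum.inl i)) => Sum.inr (Sum.inr (Sum.inl i))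
  | Sum.inr (Sum.inr (Sum.inr k)) => Sum.inr (Sum.inr (Sum.inr (Sum.inr (Sum.inl k))))

theorem value_eq {X : Type} {r s : ℕ} (Λ : (X → ℂ) → PeriodPair) (p : Fin r → (X → ℂ) → ℂ)
    (t : Fin s → (X → ℂ) → ℂ) (y : Fin 3 ⊕ (Fin r ⊕ (Fin r ⊕ Fin s))) :
    N207.AX.yw Λ p t (B y) = value Λ p t y := by
  rcases y with j | i | i | k
  · fin_cases j
    · rfl
    · rfl
    · funext z
      exact Pool.Agent.TH813.Ell.eta_half (Λ z).ω₁_mem_lattice (Pool.Agent.TH813.Ell.half₁ (Λ z))
  · rfl
  · rfl
  · rfl

theorem Family.an {X : Type} [Fintype X] {r s : ℕ} {U : Set (X → ℂ)} {Λ : (X → ℂ) → PeriodPair}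
    {p : Fin r → (X → ℂ) → ℂ} {t : Fin s → (X → ℂ) → ℂ} (h : Family U Λ p t)
    (y : Fin 3 ⊕ (Fin r ⊕ (Fin r ⊕ Fin s))) : AnalyticOnNhd ℂ (value Λ p t y) U := by
  rw [← value_eq]
  exact N603.AX.yw_an h.analytic₁ h.analytic₂ h.analytic_p h.p_notMem h.analytic_t _

/-- the `3 + 2 r + s` functions are algebraically independent over the rational functions -/
theorem independent {X : Type} [Fintype X] {r s : ℕ} {U : Set (X → ℂ)} {Λ : (X → ℂ) → PeriodPair}
    {p : Fin r → (X → ℂ) → ℂ} {t : Fin s → (X → ℂ) → ℂ} (h : Family U Λ p t) :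
    N207.AX.Ind U (value Λ p t) := by
  obtain ⟨e, he, hI⟩ := N603.AX.var (N301.AX.ind N878.AX.line) X r s U Λ p t h.isOpen h.isPreconnected h.nonempty
    h.analytic₁ h.analytic₂ h.nonconstant h.analytic_p h.p_notMem h.independent_p h.analytic_t h.independent_t
  have hcard : Fintype.card (Fin (3 + (s + 2 * r))) = Fintype.card (Fin 3 ⊕ (Fin r ⊕ (Fin r ⊕ Fin s))) := by
    simp only [Fintype.card_fin, Fintype.card_sum]
    ring
  let g : Fin (3 + (s + 2 * r)) ≃ Fin 3 ⊕ (Fin r ⊕ (Fin r ⊕ Fin s)) := Fintype.equivOfCardEq hcard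
  have hs : ∀ y : Fin 3 ⊕ (Fin r ⊕ (Fin r ⊕ Fin s)), ∃ k, B (g k) = (B y : Y776.Cv.Nv r s) :=
    fun y => ⟨g.symm y, by rw [g.apply_symm_apply]⟩
  have h1 := N207.AX.exch (f := N207.AX.yw Λ p t) (b := fun k => B (g k)) he hI (by
    rintro (j | i | i | i | k | k)
    · fin_cases j
      · exact Or.inl (hs (Sum.inl 0))
      · exact Or.inl (hs (Sum.inl 1))
      · exact Or.inl (hs (Sum.inl 2))
      · exact Or.inr h.algebraic_g₂
      · exact Or.inr h.algebraic_g₃
    · exact Or.inl (hs (Sum.inr (Sum.inl i)))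
    · exact Or.inl (hs (Sum.inr (Sum.inr (Sum.inl i))))
    · exact Or.inr (h.algebraic_wp i)
    · exact Or.inl (hs (Sum.inr (Sum.inr (Sum.inr k))))
    · exact Or.inr (h.algebraic_exp k))
  have h2 := h1.comp g.symm.injective
  have h3 : (fun k => N207.AX.yw Λ p t (B (g (g.symm k)))) = value Λ p t := by
    funext k
    rw [g.apply_symm_apply, value_eq]
  rw [h3] at h2
  exact h2

/-- **An errorless test which answers at all conjugates of almost all points.** Let `ψ` be any function which tends to
infinity.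

(1) The answers of the test are always right.

(2) Let `K` be a number field and let a family of lattices with `r` elliptic logarithms and `s` logarithms as above be
given for every complex embedding `φ` of `K` (there is no condition between different `φ`). There are `ω → ∞` and `C`
such that for all large `T`, all number fields `L` of degree at most `ω T`, with an embedding in the complex numbers such
that `L` contains all conjugates of `K`, all complex numbers `ξ i`, `i < ω T`, and all integral points `b` of `K` of house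
at most `T` with nonzero coordinates, the proportion of the integral points `x` of `K` of house at most `T` such that
`x / b` is exceptional for `δ = T ^ (-ψ T)` is at most `C T ^ (-1 + 2 / ω T)`. -/
theorem result (ψ : ℝ → ℝ) (hψ : Tendsto ψ atTop atTop) :
    (∀ (σ : Type) (R : MvPolynomial σ ℂ) (ε : ℝ) (y : ℂ) (v : σ → ℂ), ‖y - MvPolynomial.eval v R‖ ≤ ε →
      ∀ b : Bool, test R ε y = some b → (b = true ↔ MvPolynomial.eval v R = 0)) ∧
    ∀ (K X : Type) [Field K] [NumberField K] [Fintype X] [DecidableEq X] [Nonempty X] (r s : ℕ)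
      (U : (K →+* ℂ) → Set (X → ℂ)) (Λ : (K →+* ℂ) → (X → ℂ) → PeriodPair)
      (p : (K →+* ℂ) → Fin r → (X → ℂ) → ℂ) (t : (K →+* ℂ) → Fin s → (X → ℂ) → ℂ),
      (∀ φ, Family (U φ) (Λ φ) (p φ) (t φ)) →
      ∃ (ω : ℝ → ℕ) (C T₀ : ℝ), Tendsto ω atTop atTop ∧ Monotone ω ∧ ∀ T, T₀ ≤ T → 0 < ω T ∧
        (Points K X T).Finite ∧ (Points K X T).Nonempty ∧
        ∀ (L : Type) [Field L] [NumberField L], Module.finrank ℚ L ≤ ω T → ∀ io : L →+* ℂ,
          (∀ φ : K →+* ℂ, ∃ φ' : K →+* L, io.comp φ' = φ) →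
          ∀ (ξ : Fin (ω T) → ℂ), ∀ b ∈ Points K X T, (∀ j, b j ≠ 0) →
            ({x ∈ Points K X T | (fun j => (x j : K) / (b j : K)) ∈
                Undecided U (fun φ => value (Λ φ) (p φ) (t φ)) L io (ω T) ξ T (T ^ (-ψ T))}.ncard : ℝ) ≤
              C * T ^ (-1 + 2 / (ω T : ℝ)) * (Points K X T).ncard := by
  classical
  refine ⟨fun σ R ε y v h b hb => test_right R ε y v h b hb, fun K X _ _ _ _ _ r s U Λ p t h => ?_⟩
  obtain ⟨c, C₁, hc, hC₁, hlow⟩ := N227.CF.low K X
  have hψ' : Tendsto (fun T => ψ T - 1) atTop atTop := tendsto_atTop_add_const_right _ _ hψ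
  obtain ⟨ω, C, T₀, hC, h1, h2, h3⟩ := N207.NR.conj_near (fun φ => (h φ).isPreconnected)
    (fun φ => (h φ).isOpen) (fun φ => (h φ).nonempty) (fun φ => (h φ).an) (fun φ => independent (h φ)) hψ'
  refine ⟨ω, C / c, max T₀ 2, h1, h2, fun T hT => ⟨(h3 T ((le_max_left _ _).trans hT)).1, ?_, ?_, ?_⟩⟩
  · exact (hlow T (one_le_two.trans ((le_max_right _ _).trans hT))).1
  · refine ⟨0, fun j => ?_⟩
    have h5 : ((0 : X → 𝓞 K) j : K) = 0 := by simp
    have h6 : house (0 : K) = 0 := by simp [house]
    rw [h5, h6]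
    exact zero_le_two.trans ((le_max_right _ _).trans hT)
  · intro L _ _ hL io hemb ξ b hb hb0
    have hT2 : 2 ≤ T := (le_max_right _ _).trans hT
    have hT1 : 1 ≤ T := one_le_two.trans hT2
    have hTp : 0 < T := by linarith
    obtain ⟨h0fin, h4⟩ := (h3 T ((le_max_left _ _).trans hT)).2 L hL io hemb ξ b (fun j => ⟨hb0 j, hb j⟩)
    obtain ⟨-, h5, -⟩ := hlow T hT1
    have hsub : {x ∈ Points K X T | (fun j => (x j : K) / (b j : K)) ∈
        Undecided U (fun φ => value (Λ φ) (p φ) (t φ)) L io (ω T) ξ T (T ^ (-ψ T))} ⊆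
        {a : X → 𝓞 K | (∀ j, house (a j : K) ≤ T) ∧ (fun j => (a j : K) / (b j : K)) ∈
          N207.NR.ExcA U (fun φ => value (Λ φ) (p φ) (t φ)) (fun T => ψ T - 1) L io (ω T) ξ T} := by
      rintro x ⟨hx, hx1, R, hR1, hR2, m, y, hR3, hR4, hR5⟩
      have hR0 : R ≠ 0 := by
        intro h0
        unfold test at hR5
        rw [if_pos h0] at hR5
        exact absurd hR5 (by simp)
      refine ⟨hx, hx1, R, hR1, hR2, m, hR3 hR0, ?_⟩
      unfold test at hR5
      rw [if_neg hR0] at hR5
      have hle : ‖y‖ ≤ T ^ (-ψ T) * ‖R.coeff m‖ := by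
        by_contra hcon
        rw [if_pos (not_le.1 hcon)] at hR5
        exact absurd hR5 (by simp)
      have htri : ‖MvPolynomial.eval (fun q : (K →+* ℂ) × (Fin 3 ⊕ (Fin r ⊕ (Fin r ⊕ Fin s))) =>
          value (Λ q.1) (p q.1) (t q.1) q.2 fun j => q.1 ((x j : K) / (b j : K))) R‖ ≤
          2 * (T ^ (-ψ T) * ‖R.coeff m‖) := by
        have h6 := norm_sub_norm_le (MvPolynomial.eval (fun q : (K →+* ℂ) × (Fin 3 ⊕ (Fin r ⊕ (Fin r ⊕ Fin s))) =>
          value (Λ q.1) (p q.1) (t q.1) q.2 fun j => q.1 ((x j : K) / (b j : K))) R) y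
        rw [norm_sub_rev] at h6
        linarith
      refine htri.trans ?_
      rw [← mul_assoc]
      refine mul_le_mul_of_nonneg_right ?_ (norm_nonneg _)
      have h7 : T ^ (-(ψ T - 1)) = T * T ^ (-ψ T) := by
        rw [show -(ψ T - 1) = 1 + -ψ T by ring, Real.rpow_add hTp, Real.rpow_one]
      rw [h7]
      exact mul_le_mul_of_nonneg_right hT2 (by positivity)
    have h6 : ({x ∈ Points K X T | (fun j => (x j : K) / (b j : K)) ∈
        Undecided U (fun φ => value (Λ φ) (p φ) (t φ)) L io (ω T) ξ T (T ^ (-ψ T))}.ncard : ℝ) ≤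
        C * T ^ ((Module.finrank ℚ K * Fintype.card X : ℝ) - 1 + 2 * ((ω T : ℝ)⁻¹)) := by
      refine le_trans ?_ h4
      exact_mod_cast Set.ncard_le_ncard hsub h0fin
    refine h6.trans ?_
    have h7 : (T : ℝ) ^ ((Module.finrank ℚ K * Fintype.card X : ℝ) - 1 + 2 * ((ω T : ℝ)⁻¹)) =
        T ^ (-1 + 2 / (ω T : ℝ)) * T ^ (Module.finrank ℚ K * Fintype.card X) := by
      rw [← Real.rpow_natCast T (Module.finrank ℚ K * Fintype.card X), ← Real.rpow_add hTp]
      congr 1
      push_cast
      ring
    rw [h7]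
    have h8 : T ^ (Module.finrank ℚ K * Fintype.card X) ≤ ((Points K X T).ncard : ℝ) / c := by
      rw [le_div_iff₀ hc, mul_comm]
      exact h5
    calc C * (T ^ (-1 + 2 / (ω T : ℝ)) * T ^ (Module.finrank ℚ K * Fintype.card X)) ≤
          C * (T ^ (-1 + 2 / (ω T : ℝ)) * (((Points K X T).ncard : ℝ) / c)) :=
          mul_le_mul_of_nonneg_left (mul_le_mul_of_nonneg_left h8 (by positivity)) hC
      _ = _ := by ring

end Pool.Agent.Results.MP_bbe012_lc.OneMotivesAllConjugates
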